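import Pool.Agent.H68.GCL.Targets

/-!
Arithmetic (helper68).
-/

namespace Pool.Agent.H68.GCL

open Pool.Agent.H76.SW

theorem p3_mul (x y : ℕ) : 2 ^ 2 ^ 2 ^ x * 2 ^ 2 ^ 2 ^ y ≤ 2 ^ 2 ^ 2 ^ (x + y + 1) := by
  rw [← pow_add]
  refine Nat.pow_le_pow_right (by norm_num) ?_
  have h1 : 2 ^ 2 ^ x ≤ 2 ^ 2 ^ (x + y) :=
    Nat.pow_le_pow_right (by norm_num) (Nat.pow_le_pow_right (by norm_num) (by omega))
  have h2 : 2 ^ 2 ^ y ≤ 2 ^ 2 ^ (x + y) :=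
    Nat.pow_le_pow_right (by norm_num) (Nat.pow_le_pow_right (by norm_num) (by omega))
  calc 2 ^ 2 ^ x + 2 ^ 2 ^ y ≤ 2 ^ 2 ^ (x + y) * 2 := by omega
    _ = 2 ^ (2 ^ (x + y) + 1) := by rw [pow_succ]
    _ ≤ 2 ^ 2 ^ (x + y + 1) := by
        refine Nat.pow_le_pow_right (by norm_num) ?_
        have : 1 ≤ 2 ^ (x + y) := Nat.one_le_two_pow
        rw [pow_succ 2 (x + y)]
        omega

theorem p3_mono {x y : ℕ} (h : x ≤ y) : 2 ^ 2 ^ 2 ^ x ≤ 2 ^ 2 ^ 2 ^ y :=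
  Nat.pow_le_pow_right (by norm_num) (Nat.pow_le_pow_right (by norm_num)
    (Nat.pow_le_pow_right (by norm_num) h))

theorem pf_ARI (h1 : U_el1) : T_ARI := by
  intro k
  obtain ⟨c0, hc0⟩ := h1 k 0
  obtain ⟨c1, hc1⟩ := h1 k 1
  refine ⟨c0 + c1 + 5, fun r s s' hs => ?_⟩
  set n := 2 ^ s' with hn
  have e0 : ∀ r, BB k r n s' = BB k 0 n s' * TN k s' n ^ r := by
    intro r
    unfold BB
    rw [pow_zero, mul_one]
    ring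
  have hTB : 1 ≤ TB k s' n := by
    unfold TB
    omega
  have h2 : TN k s' n ≤ BB k 1 n s' := by
    unfold BB
    rw [pow_one]
    calc TN k s' n = 1 * TN k s' n * 1 := by ring
      _ ≤ 2 ^ ((TN k s' n * s') ^ 2) * TN k s' n * TB k s' n :=
        Nat.mul_le_mul (Nat.mul_le_mul_right _ Nat.one_le_two_pow) hTB
  set M := 2 ^ 2 ^ 2 ^ ((c0 + c1) * (s + 1)) with hM
  have hM1 : 1 ≤ M := Nat.one_le_two_pow
  have h3 : 1 + BB k 0 n s' ≤ M :=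
    (hc0 s').trans (p3_mono (Nat.mul_le_mul (by omega) (by omega)))
  have h4 : TN k s' n ≤ M := by
    have h5 : 1 + BB k 1 n s' ≤ M :=
      (hc1 s').trans (p3_mono (Nat.mul_le_mul (by omega) (by omega)))
    omega
  have h6 : 1 + BB k r n s' ≤ M ^ (r + 1) := by
    rw [e0 r]
    have h7 : TN k s' n ^ r ≤ M ^ r := Nat.pow_le_pow_left h4 r
    have h8 : 1 ≤ M ^ r := Nat.one_le_pow _ _ hM1
    calc 1 + BB k 0 n s' * TN k s' n ^ r ≤ M ^ r + BB k 0 n s' * M ^ r :=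
          Nat.add_le_add h8 (Nat.mul_le_mul_left _ h7)
      _ = (1 + BB k 0 n s') * M ^ r := by ring
      _ ≤ M * M ^ r := Nat.mul_le_mul_right _ h3
      _ = M ^ (r + 1) := by rw [pow_succ]; ring
  have h9 : 1 + 2 * s ^ 2 ≤ 2 ^ 2 ^ 2 ^ (2 * (s + 1)) := by
    have a1 : 1 + 2 * s ^ 2 ≤ 2 ^ (2 * (s + 1)) := by
      have b1 : s + 1 ≤ 2 ^ s := Nat.lt_two_pow_self
      have b2 : (s + 1) * (s + 1) ≤ 2 ^ s * 2 ^ s := Nat.mul_le_mul b1 b1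
      have b3 : 2 ^ (2 * (s + 1)) = 4 * (2 ^ s * 2 ^ s) := by
        rw [← pow_add, show 2 * (s + 1) = (s + s) + 2 by ring, pow_add]
        ring
      rw [b3]
      nlinarith
    have a2 : ∀ x : ℕ, x ≤ 2 ^ x := fun x => Nat.lt_two_pow_self.le
    exact a1.trans ((a2 _).trans (Nat.pow_le_pow_right (by norm_num) (a2 _)))
  have h10 : M * 2 ^ 2 ^ 2 ^ (2 * (s + 1)) ≤ 2 ^ 2 ^ 2 ^ ((c0 + c1 + 5) * (s + 1)) := by
    refine (p3_mul _ _).trans (p3_mono ?_)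
    nlinarith
  have h11 : M ≤ 2 ^ 2 ^ 2 ^ ((c0 + c1 + 5) * (s + 1)) :=
    p3_mono (Nat.mul_le_mul_right _ (by omega))
  unfold BD
  calc (1 + BB k r n s') * (1 + 2 * s ^ 2) ≤ M ^ (r + 1) * 2 ^ 2 ^ 2 ^ (2 * (s + 1)) :=
        Nat.mul_le_mul h6 h9
    _ = M ^ r * (M * 2 ^ 2 ^ 2 ^ (2 * (s + 1))) := by rw [pow_succ]; ring
    _ ≤ (2 ^ 2 ^ 2 ^ ((c0 + c1 + 5) * (s + 1))) ^ r *
        2 ^ 2 ^ 2 ^ ((c0 + c1 + 5) * (s + 1)) :=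
        Nat.mul_le_mul (Nat.pow_le_pow_left h11 r) h10
    _ = (2 ^ 2 ^ 2 ^ ((c0 + c1 + 5) * (s + 1))) ^ (r + 1) := by rw [pow_succ]

end Pool.Agent.H68.GCL
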