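import Pool.Agent.H68.GCL.Targets

/-!
The number of nodes of a canonical database (helper68).
-/

namespace Pool.Agent.H68.GCL

open Pool.Agent.H76.SW

theorem pos_card {A : Type} (T : Term A) : Finite T.Pos ∧ Nat.card T.Pos = sz T := by
  induction T with
  | edge a =>
      constructor
      · exact (inferInstance : Finite Bool)
      · show Nat.card Bool = 2
        simp
  | node n m src tgt ch p q ih =>
      have h1 : ∀ i, Finite (ch i).Pos := fun i => (ih i).1
      constructor
      · show Finite (Fin n ⊕ (Σ i : Fin m, (ch i).Pos))
        infer_instance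
      · show Nat.card (Fin n ⊕ (Σ i : Fin m, (ch i).Pos)) = n + ∑ i, sz (ch i)
        rw [Nat.card_sum, Nat.card_fin, Nat.card_sigma]
        congr 1
        exact Finset.sum_congr rfl fun i _ => (ih i).2

theorem pf_CRD : T_CRD := by
  intro A T
  obtain ⟨h1, h2⟩ := pos_card T
  have hs : Function.Surjective (Quot.mk (fun x y : T.Pos => T.stp x none y)) :=
    fun v => Quot.exists_rep v
  constructor
  · exact Finite.of_surjective _ hs
  · rw [← h2]
    exact Nat.card_le_card_of_surjective _ hs

end Pool.Agent.H68.GCL
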