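import Pool.Agent.H68.GCL.Targets

/-!
The canonical database of a node (helper68).
-/

namespace Pool.Agent.H68.GCL

open Pool.Agent.H76.SW

theorem pf_CVR : T_CVR := by
  intro A n m src tgt ch p q
  have hin : ∀ (i : Fin m) (x : (ch i).Pos) (l : Option (A × Bool)) (y : (ch i).Pos),
      (ch i).stp x l y →
      (Term.node n m src tgt ch p q).stp (Sum.inr ⟨i, x⟩) l (Sum.inr ⟨i, y⟩) :=
    fun i x l y h => Or.inl ⟨i, x, y, rfl, rfl, h⟩
  refine ⟨fun i => Quot.lift (fun x => cl (Term.node n m src tgt ch p q).stp (Sum.inr ⟨i, x⟩))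
    (fun x y h => Quot.sound (hin i x none y h)), ?_, ?_, ?_, ?_⟩
  · intro v
    obtain ⟨x, rfl⟩ := Quot.exists_rep v
    cases x with
    | inl x => exact Or.inl ⟨x, rfl⟩
    | inr w =>
        obtain ⟨i, y⟩ := w
        exact Or.inr ⟨i, cl _ y, rfl⟩
  · intro u a v
    constructor
    · rintro ⟨x, y, rfl, rfl, (⟨i, x', y', rfl, rfl, hs⟩ | ⟨h0, -⟩)⟩
      · exact ⟨i, cl _ x', cl _ y', rfl, rfl, x', y', rfl, rfl, hs⟩
      · cases h0
    · rintro ⟨i, x, y, rfl, rfl, x', y', rfl, rfl, hs⟩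
      exact ⟨Sum.inr ⟨i, x'⟩, Sum.inr ⟨i, y'⟩, rfl, rfl, hin i x' _ y' hs⟩
  · intro i b
    exact Quot.sound (Or.inr ⟨rfl, i, b, Or.inr ⟨rfl, rfl⟩⟩)
  · intro U Y hY
    have hr : ∀ x y : (Term.node n m src tgt ch p q).Pos,
        (Term.node n m src tgt ch p q).stp x none y →
        (Sum.elim (fun x => x ∈ U) (fun w : (Σ i : Fin m, (ch i).Pos) =>
          cl (ch w.1).stp w.2 ∈ Y w.1) x : Prop) =
        (Sum.elim (fun x => x ∈ U) (fun w : (Σ i : Fin m, (ch i).Pos) =>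
          cl (ch w.1).stp w.2 ∈ Y w.1) y : Prop) := by
      rintro x y (⟨i, x', y', rfl, rfl, hs⟩ | ⟨-, i, b, ⟨rfl, rfl⟩ | ⟨rfl, rfl⟩⟩)
      · simp only [Sum.elim_inr]
        have e : cl (ch i).stp x' = cl (ch i).stp y' := Quot.sound hs
        rw [e]
      · simp only [Sum.elim_inl, Sum.elim_inr]
        exact propext (hY i b).symm
      · simp only [Sum.elim_inl, Sum.elim_inr]
        exact propext (hY i b)
    refine ⟨{v | Quot.lift _ hr v}, fun x => Iff.rfl, ?_⟩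
    intro i y
    obtain ⟨y', rfl⟩ := Quot.exists_rep y
    exact Iff.rfl

end Pool.Agent.H68.GCL
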