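import Pool.Agent.H68.GCL.DES

/-!
Decorated terms: assignments (helper68).
-/

namespace Pool.Agent.H68.GCL

open Pool.Agent.H76.SW

theorem dea_node {A V W I : Type} [Finite I] (F : V → A ⊕ I → V → Prop)
    (G : W → A ⊕ I → W → Prop) {n m : ℕ} (src tgt : Fin m → Fin n) (ch : Fin m → Term A)
    (p q : Fin n) (h : (Term.node n m src tgt ch p q).Pos → V) (μ : Fin n → W)
    (ih : ∀ (i : Fin m) (h : (ch i).Pos → V) (u v : W), (decT F (ch i) h).Sat G u v →
      ∃ ν : (ch i).Pos → W, Asg F (ch i) h G ν ∧ ν ((ch i).pt false) = u ∧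
        ν ((ch i).pt true) = v)
    (hsat : ∀ x, (dCh (fun i => decT F (ch i) (fun y => h (Sum.inr ⟨i, y⟩)))
          (nLoop F fun v => h (Sum.inl v)) x).Sat G (μ (dSrc I src x)) (μ (dSrc I tgt x))) :
    ∃ ν : (Term.node n m src tgt ch p q).Pos → W,
        Asg F (Term.node n m src tgt ch p q) h G ν ∧ ∀ x, ν (Sum.inl x) = μ x := by
  have hch : ∀ i : Fin m, (decT F (ch i) (fun y => h (Sum.inr ⟨i, y⟩))).Sat G (μ (src i))
      (μ (tgt i)) := by
    intro i
    have h1 := hsat (Finite.equivFin (Fin m ⊕ (I × Fin n)) (Sum.inl i))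
    unfold dCh dSrc at h1
    rw [Equiv.symm_apply_apply] at h1
    exact h1
  have hlp : ∀ (i : I) (v : Fin n), F (h (Sum.inl v)) (Sum.inr i) (h (Sum.inl v)) →
      G (μ v) (Sum.inr i) (μ v) := by
    intro i v hF
    have h1 := hsat (Finite.equivFin (Fin m ⊕ (I × Fin n)) (Sum.inr (i, v)))
    unfold dCh dSrc at h1
    rw [Equiv.symm_apply_apply] at h1
    exact (opt_sat G _ _ _ _).1 h1 hF
  choose ν hν using fun i : Fin m => ih i (fun y => h (Sum.inr ⟨i, y⟩)) _ _ (hch i)
  have key : ∀ ν' : Fin n ⊕ (Σ i : Fin m, (ch i).Pos) → W,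
      (∀ x, ν' (Sum.inl x) = μ x) → (∀ i y, ν' (Sum.inr ⟨i, y⟩) = ν i y) →
      Asg F (Term.node n m src tgt ch p q) h G ν' := by
    intro ν' h1 h2
    refine ⟨?_, ?_, ?_, ?_, ?_⟩
    · rintro x y (⟨i, x', y', rfl, rfl, hs⟩ | ⟨-, i, b, ⟨rfl, rfl⟩ | ⟨rfl, rfl⟩⟩)
      · rw [h2, h2]
        exact (hν i).1.sil x' y' hs
      · rw [h1, h2]
        cases b
        · exact (hν i).2.1.symm
        · exact (hν i).2.2.symm
      · rw [h1, h2]
        cases b
        · exact (hν i).2.1
        · exact (hν i).2.2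
    · rintro x a y (⟨i, x', y', rfl, rfl, hs⟩ | ⟨h0, -⟩)
      · rw [h2, h2]
        exact (hν i).1.lab x' a y' hs
      · cases h0
    · rintro x i hx
      cases x with
      | inl v =>
          rw [h1]
          exact hlp i v hx
      | inr w =>
          obtain ⟨j, y⟩ := w
          rw [h2]
          exact (hν j).1.loop y i hx
    · rintro x a y i (⟨j, x', y', rfl, rfl, hs⟩ | ⟨h0, -⟩) hF
      · rw [h2, h2]
        exact (hν j).1.fwd x' a y' i hs hF
      · cases h0
    · rintro x a y i (⟨j, x', y', rfl, rfl, hs⟩ | ⟨h0, -⟩) hF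
      · rw [h2, h2]
        exact (hν j).1.bwd x' a y' i hs hF
      · cases h0
  exact ⟨Sum.elim μ (fun w => ν w.1 w.2), key _ (fun _ => rfl) (fun _ _ => rfl), fun _ => rfl⟩

theorem dea_all {A V W I : Type} [Finite I] (F : V → A ⊕ I → V → Prop)
    (G : W → A ⊕ I → W → Prop) (T : Term A) : ∀ (h : T.Pos → V) (u v : W),
    (decT F T h).Sat G u v →
      ∃ ν : T.Pos → W, Asg F T h G ν ∧ ν (T.pt false) = u ∧ ν (T.pt true) = v := by
  induction T with
  | edge a =>
      have main : ∀ (h : Bool → V) (μ : Fin 2 → W),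
          (∀ y : Option (I × Bool × Bool), (eCh F a h y).Sat G (μ (eSrc y)) (μ (eTgt y))) →
          ∀ ν : Bool → W, (∀ s, ν s = μ (bz s)) →
          Asg F (Term.edge a) h G ν := by
        intro h μ hy ν hν
        have hh : ∀ (i : I) (s t : Bool), F (h s) (Sum.inr i) (h t) →
            G (ν s) (Sum.inr i) (ν t) := by
          intro i s t hF
          have h1 := hy (some (i, s, t))
          rw [hν, hν]
          exact (opt_sat G _ _ _ _).1 h1 hF
        have hl : G (ν false) (Sum.inl a) (ν true) := by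
          rw [hν, hν]
          exact hy none
        refine ⟨?_, ?_, ?_, ?_, ?_⟩
        · rintro x y (⟨-, h0, -⟩ | ⟨-, h0, -⟩) <;> cases h0
        · rintro x a' y (⟨h1, h0, h2⟩ | ⟨-, h0, -⟩)
          · obtain ⟨rfl, -⟩ := Prod.mk.inj (Option.some.inj h0)
            have e1 : (x : Bool) = false := h1
            have e2 : (y : Bool) = true := h2
            subst e1 e2
            exact hl
          · have := (Prod.mk.inj (Option.some.inj h0)).2
            cases this
        · intro x i hF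
          exact hh i x x hF
        · intro x a' y i _ hF
          exact hh i x y hF
        · intro x a' y i _ hF
          exact hh i y x hF
      rintro h u v ⟨μ, hsat, hu, hv⟩
      refine ⟨fun s => μ (bz s), main h μ (fun y => ?_) _ (fun _ => rfl), hu, hv⟩
      have h1 := hsat (Finite.equivFin (Option (I × Bool × Bool)) y)
      simp only [Equiv.symm_apply_apply] at h1
      exact h1
  | node n m src tgt ch p q ih =>
      rintro h u v ⟨μ, hsat, hu, hv⟩
      obtain ⟨ν, h1, h2⟩ := dea_node F G src tgt ch p q h μ ih hsat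
      exact ⟨ν, h1, (h2 p).trans hu, (h2 q).trans hv⟩

theorem pf_DEA : T_DEA := by
  intro A V W I _ F G
  refine ⟨fun T h u v => dea_all F G T h u v, ?_⟩
  intro n m src tgt ch p q h μ hsat
  exact dea_node F G src tgt ch p q h μ (fun i => dea_all F G (ch i)) hsat

end Pool.Agent.H68.GCL
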