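import Pool.Agent.H68.GCL.Targets

/-!
Decorated terms (helper68).
-/

namespace Pool.Agent.H68.GCL

open Pool.Agent.H76.SW

theorem triv_sat {A V : Type} (E : V → A → V → Prop) (x y : V) : (triv (A := A)).Sat E x y := by
  refine ⟨fun s : Fin 2 => if s = 0 then x else y, fun i => i.elim0, ?_, ?_⟩
  · simp
  · simp

theorem opt_sat {A V : Type} (E : V → A → V → Prop) (P : Prop) (a : A) (x y : V) :
    (opt P a).Sat E x y ↔ (P → E x a y) := by
  classical
  unfold opt
  by_cases h : P
  · rw [if_pos h]
    constructor
    · intro h1 _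
      exact h1
    · intro h1
      exact h1 h
  · rw [if_neg h]
    constructor
    · intro _ h1
      exact absurd h1 h
    · intro _
      exact triv_sat E x y

theorem pf_CAN (h3 : U_s3_id) (h4 : U_s4_child) (h6 : U_s6_sat) (h7 : U_s7_node) : T_CAN := by
  intro A n m src tgt ch p q i
  have ho := h3 (Term.node n m src tgt ch p q)
  have hc := h4 _ ho i
  have hs := h6 _ (ch i) _ hc
  have e1 := (h7 _ ho i false).2.2
  have e2 := (h7 _ ho i true).2.2
  simp only [id] at e1 e2 hs
  rw [e1, e2] at hs
  simpa using hs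

/-- all children of a decorated node are satisfied -/
theorem des_node {A V I : Type} [Finite I] (F : V → A ⊕ I → V → Prop) {n m : ℕ}
    (src tgt : Fin m → Fin n) (ch : Fin m → Term A) (p q : Fin n)
    (h : (Term.node n m src tgt ch p q).Pos → V)
    (hs : ∀ x y, (Term.node n m src tgt ch p q).stp x none y → h x = h y)
    (hl : ∀ x a y, (Term.node n m src tgt ch p q).stp x (some (a, true)) y →
        F (h x) (Sum.inl a) (h y))
    (ih : ∀ (i : Fin m) (h : (ch i).Pos → V), (∀ x y, (ch i).stp x none y → h x = h y) →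
      (∀ x a y, (ch i).stp x (some (a, true)) y → F (h x) (Sum.inl a) (h y)) →
      (decT F (ch i) h).Sat F (h ((ch i).pt false)) (h ((ch i).pt true)))
    (x : Fin (Nat.card (Fin m ⊕ (I × Fin n)))) :
    (dCh (fun i => decT F (ch i) (fun y => h (Sum.inr ⟨i, y⟩)))
          (nLoop F fun v => h (Sum.inl v)) x).Sat F (h (Sum.inl (dSrc I src x)))
          (h (Sum.inl (dSrc I tgt x))) := by
  unfold dCh dSrc
  generalize (Finite.equivFin (Fin m ⊕ (I × Fin n))).symm x = y
  cases y with
  | inl i =>
      simp only [Sum.elim_inl, nSrc]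
      have h1 := ih i (fun y => h (Sum.inr ⟨i, y⟩))
        (fun x y hxy => hs _ _ (Or.inl ⟨i, x, y, rfl, rfl, hxy⟩))
        (fun x a y hxy => hl _ _ _ (Or.inl ⟨i, x, y, rfl, rfl, hxy⟩))
      have e1 : h (Sum.inl (src i)) = h (Sum.inr ⟨i, (ch i).pt false⟩) :=
        hs _ _ (Or.inr ⟨rfl, i, false, Or.inl ⟨rfl, rfl⟩⟩)
      have e2 : h (Sum.inl (tgt i)) = h (Sum.inr ⟨i, (ch i).pt true⟩) :=
        hs _ _ (Or.inr ⟨rfl, i, true, Or.inl ⟨rfl, rfl⟩⟩)
      rw [e1, e2]
      exact h1
  | inr w =>
      simp only [Sum.elim_inr, nSrc]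
      unfold nLoop
      rw [opt_sat]
      exact fun h => h

theorem des_all {A V I : Type} [Finite I] (F : V → A ⊕ I → V → Prop) (T : Term A) :
    ∀ (h : T.Pos → V), (∀ x y, T.stp x none y → h x = h y) →
      (∀ x a y, T.stp x (some (a, true)) y → F (h x) (Sum.inl a) (h y)) →
      (decT F T h).Sat F (h (T.pt false)) (h (T.pt true)) := by
  induction T with
  | edge a =>
      intro h hs hl
      have key : ∀ (h' : Bool → V), (∀ x a' y, (Term.edge a).stp x (some (a', true)) y →
          F (h' x) (Sum.inl a') (h' y)) → ∀ y : Option (I × Bool × Bool),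
          (eCh F a h' y).Sat F ((fun s : Fin 2 => if s = 0 then h' false else h' true) (eSrc y))
            ((fun s : Fin 2 => if s = 0 then h' false else h' true) (eTgt y)) := by
        intro h' hl' y
        cases y with
        | none => exact hl' false a true (Or.inl ⟨rfl, rfl, rfl⟩)
        | some w =>
            obtain ⟨i, s, t⟩ := w
            unfold eCh
            rw [opt_sat]
            intro hF
            cases s <;> cases t <;> exact hF
      refine ⟨fun s : Fin 2 => if s = 0 then h false else h true, ?_, by simp [Term.pt], by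
        simp [Term.pt]⟩
      intro x
      exact key h hl ((Finite.equivFin (Option (I × Bool × Bool))).symm x)
  | node n m src tgt ch p q ih =>
      intro h hs hl
      refine ⟨fun v => h (Sum.inl v), ?_, rfl, rfl⟩
      exact des_node F src tgt ch p q h hs hl ih

theorem pf_DES : T_DES := by
  intro A V I _ F
  refine ⟨fun T h => des_all F T h, ?_⟩
  intro n m src tgt ch p q h hs hl
  exact des_node F src tgt ch p q h hs hl (fun i => des_all F (ch i))

end Pool.Agent.H68.GCL
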