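import Pool.Agent.H68.GCL.Targets

/-!
Assembly (helper68).
-/

namespace Pool.Agent.H68.GCL

open Pool.Agent.H76.SW

/-- Maximal under-approximations and the finite search. -/
theorem pf_FIN (h1 : T_PA1) (h2 : T_SMA) (k : ℕ) (hk : 1 ≤ k) :
    ∃ c : ℕ, ∀ (r : ℕ) (A : Type) (Γ : Query A r), QGC k Γ →
      (∃ Δ : Query A r, Δ.Width k ∧ QGC k Δ ∧ Δ.size ≤ BD c r Γ.size ∧ Δ.Le Γ ∧
        ∀ Ω : Query A r, Ω.Width k → Ω.Le Γ → Ω.Le Δ) ∧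
      (Finite A → ((∃ Ω : Query A r, Ω.Width k ∧ Ω.Le Γ ∧ Γ.Le Ω) ↔
        ∃ Δ : Query A r, Δ.Width k ∧ QGC k Δ ∧ Δ.size ≤ BD c r Γ.size ∧
          ∀ (V : Type) [Finite V],
            Nat.card V ≤ SMB (Nat.card A) Γ.size Δ.size + SMB (Nat.card A) Δ.size Γ.size →
            ∀ (E : V → A → V → Prop) (z : Fin r → V), Γ.Sat E z ↔ Δ.Sat E z)) := by
  obtain ⟨c, hc⟩ := h1 k hk
  refine ⟨c, fun r A Γ hΓ => ⟨hc r A Γ hΓ, fun hA => ⟨?_, ?_⟩⟩⟩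
  · rintro ⟨Ω, hw, hle, hge⟩
    obtain ⟨Δ, a1, a2, a3, a4, a5⟩ := hc r A Γ hΓ
    refine ⟨Δ, a1, a2, a3, fun V _ _ E z => ⟨fun h => ?_, fun h => a4 V E z h⟩⟩
    exact a5 Ω hw hle V E z (hge V E z h)
  · rintro ⟨Δ, a1, -, -, a4⟩
    refine ⟨Δ, a1, h2 Δ Γ ?_, h2 Γ Δ ?_⟩
    · intro V _ hV E z hz
      exact (a4 V (hV.trans (Nat.le_add_left _ _)) E z).2 hz
    · intro V _ hV E z hz
      exact (a4 V (hV.trans (Nat.le_add_right _ _)) E z).1 hz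

end Pool.Agent.H68.GCL
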