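import Pool.Agent.H68.GCL.Targets

/-!
Small expansions (helper68).
-/

namespace Pool.Agent.H68.GCL

open Pool.Agent.H76.SW

theorem path_mono {Λ V : Type} {F F' : V → Λ → V → Prop} (h : ∀ x l y, F x l y → F' x l y)
    {u v : V} {w : List (Λ × Bool)} (hp : Path F u w v) : Path F' u w v := by
  induction hp with
  | nil u => exact Path.nil u
  | cons u v t l w hs _ ih =>
      refine Path.cons u v t l w ?_ ih
      unfold Step at hs ⊢
      split_ifs at hs ⊢ with h0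
      · exact h _ _ _ hs
      · exact h _ _ _ hs

/-- small expansions exist for the symbol -/
def SHH {A : Type} (q : ℕ) (ω : RQ A) : Prop :=
  ∀ (V : Type) (E : V → A → V → Prop) (u v : V), ω.Sat E u v →
    ∃ T0 T : Term A, T0.Sat E u v ∧ tt q T = tt q T0 ∧
      sz T ≤ SZ (Nat.card (Ty A Bool q 0)) ω ∧ Snd T ω

theorem shr_body (h1 : T_CHN) {A : Type} [Finite A] (q : ℕ) {c : ℕ} (b : Body A c)
    (sub : Fin c → RQ A) (ih : ∀ j, SHH q (sub j)) (V : Type) (E : V → A → V → Prop)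
    (μ : Fin b.n → V) (hb : b.Holds E (fun j => (sub j).Sat E) μ) :
    ∃ ch0 ch : Fin b.m → Term A, (∀ i, (ch0 i).Sat E (μ (b.src i)) (μ (b.tgt i))) ∧
      (∀ i, tt q (ch i) = tt q (ch0 i)) ∧
      (∀ i, sz (ch i) ≤ CH (b.st i) (Nat.card (Ty A Bool q 0))
        (2 + ∑ j, SZ (Nat.card (Ty A Bool q 0)) (sub j))) ∧
      ∀ (V' : Type) (E' : V' → A → V' → Prop) (μ' : Fin b.n → V'),
        (∀ i, (ch i).Sat E' (μ' (b.src i)) (μ' (b.tgt i))) →
        b.Holds E' (fun j => (sub j).Sat E') μ' := by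
  have key : ∀ i : Fin b.m, ∃ T0 T : Term A, T0.Sat E (μ (b.src i)) (μ (b.tgt i)) ∧
      tt q T = tt q T0 ∧
      sz T ≤ CH (b.st i) (Nat.card (Ty A Bool q 0))
        (2 + ∑ j, SZ (Nat.card (Ty A Bool q 0)) (sub j)) ∧
      ∀ (V' : Type) (E' : V' → A → V' → Prop) (u' v' : V'), T.Sat E' u' v' →
        ∃ w ∈ (b.aut i).accepts, Path (fun x l y => ∃ T ∈ (Sum.elim (fun a => {Term.edge a})
          (fun j => {T | Snd T (sub j)}) l : Set (Term A)), T.Sat E' x y) u' w v' := by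
    intro i
    refine h1 (A := A) (Λ := A ⊕ Fin c) q _ (b.aut i)
      (fun l => Sum.elim (fun a => {Term.edge a})
        (fun j => {T | ∃ T', tt q T' = tt q T ∧ sz T' ≤ SZ (Nat.card (Ty A Bool q 0)) (sub j) ∧
          Snd T' (sub j)}) l)
      (fun l => Sum.elim (fun a => {Term.edge a}) (fun j => {T | Snd T (sub j)}) l)
      ?_ V E _ _ ?_
    · rintro (a | j) T hT
      · refine ⟨T, hT, rfl, ?_⟩
        have e : T = Term.edge a := hT
        rw [e]
        unfold sz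
        omega
      · obtain ⟨T', e1, e2, e3⟩ := hT
        refine ⟨T', e3, e1, e2.trans ?_⟩
        have := Finset.single_le_sum (f := fun j => SZ (Nat.card (Ty A Bool q 0)) (sub j))
          (fun _ _ => Nat.zero_le _) (Finset.mem_univ j)
        omega
    · obtain ⟨w, hw, hp⟩ := hb i
      refine ⟨w, hw, path_mono ?_ hp⟩
      rintro x (a | j) y hxy
      · exact ⟨Term.edge a, rfl, hxy⟩
      · obtain ⟨T0, T, e1, e2, e3, e4⟩ := ih j V E x y hxy
        exact ⟨T0, ⟨T, e2, e3, e4⟩, e1⟩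
  choose ch0 ch k1 k2 k3 k4 using key
  refine ⟨ch0, ch, k1, k2, k3, ?_⟩
  intro V' E' μ' hch i
  obtain ⟨w, hw, hp⟩ := k4 i V' E' _ _ (hch i)
  refine ⟨w, hw, path_mono ?_ hp⟩
  rintro x (a | j) y ⟨T, hT, hs⟩
  · have e : T = Term.edge a := hT
    rw [e] at hs
    exact hs
  · exact hT V' E' x y hs

theorem pf_SHR (h1 : T_CHN) (h2 : T_NOD) : T_SHR := by
  intro A _ q ω
  induction ω with
  | cq c b sub p p' ih =>
      rintro V E u v ⟨μ, hb, hp, hp'⟩
      obtain ⟨ch0, ch, k1, k2, k3, k4⟩ := shr_body h1 q b sub ih V E μ hb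
      refine ⟨Term.node b.n b.m b.src b.tgt ch0 p p', Term.node b.n b.m b.src b.tgt ch p p',
        ⟨μ, k1, hp, hp'⟩, ((h2 q b.src b.tgt ch ch0 k2).1 p p'), ?_, ?_⟩
      · unfold sz SZ
        exact Nat.add_le_add_left (Finset.sum_le_sum fun i _ => k3 i) _
      · rintro V' E' u' v' ⟨μ', hs, hq, hq'⟩
        exact ⟨μ', k4 V' E' μ' hs, hq, hq'⟩
  | union n sub ih =>
      rintro V E u v ⟨j, hj⟩
      obtain ⟨T0, T, e1, e2, e3, e4⟩ := ih j V E u v hj
      refine ⟨T0, T, e1, e2, e3.trans ?_, fun V' E' u' v' hs => ⟨j, e4 V' E' u' v' hs⟩⟩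
      show SZ (Nat.card (Ty A Bool q 0)) (sub j) ≤ ∑ j, SZ (Nat.card (Ty A Bool q 0)) (sub j)
      exact Finset.single_le_sum (f := fun j => SZ (Nat.card (Ty A Bool q 0)) (sub j))
          (fun _ _ => Nat.zero_le _) (Finset.mem_univ j)

theorem pf_SHC (h1 : T_CHN) (h2 : T_SHR) : T_SHC := by
  intro A _ q r t V E z
  rintro ⟨μ, hb, hz⟩
  obtain ⟨ch0, ch, k1, k2, k3, k4⟩ := shr_body h1 q t.b t.sub (fun j => h2 q (t.sub j)) V E μ hb
  refine ⟨ch0, ch, ⟨μ, k1, hz⟩, k2, ?_, fun V' E' μ' hs => ⟨μ', k4 V' E' μ' hs, fun _ => rfl⟩⟩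
  unfold SZC
  exact Nat.add_le_add_left (Finset.sum_le_sum fun i _ => k3 i) _

end Pool.Agent.H68.GCL
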