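import Pool.Agent.H76.SW.All
import Pool.Agent.H13.GCL.SBW
import Pool.Agent.H20.GCL.SMA
import Pool.Agent.H52.GCL.SZB
import Pool.Agent.H52.GCL.TNC
import Pool.Agent.H52.GCL.TRI
import Pool.Agent.H52.GCL.WLK
import Pool.Agent.H67.GCL.HAT
import Pool.Agent.H68.GCL.ARI
import Pool.Agent.H68.GCL.CRD
import Pool.Agent.H68.GCL.CVR
import Pool.Agent.H68.GCL.DEA
import Pool.Agent.H68.GCL.DES
import Pool.Agent.H68.GCL.FIN
import Pool.Agent.H68.GCL.PA1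
import Pool.Agent.H68.GCL.SHR
import Pool.Agent.H72.GCL.REL
import Pool.Agent.H76.GCL.CHN
import Pool.Agent.H76.GCL.CMP
import Pool.Agent.H76.GCL.INB
import Pool.Agent.H76.GCL.INV
import Pool.Agent.H76.GCL.NAM
import Pool.Agent.H76.GCL.SBS
import Pool.Agent.H76.GCL.TEX
import Pool.Agent.H76.GCL.TMO
import Pool.Agent.H79.GCL.PMX
import Pool.Agent.H99.GCL.DEW
import Pool.Agent.H99.GCL.TRQ

/-!
Assembly of the modules (helper68).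
-/

namespace Pool.Agent.H68.GCL

open Pool.Agent.H76.SW Pool.Agent.H76.SWAll

theorem ok_TRI : T_TRI := Pool.Agent.H52.GCL.pf_TRI
theorem ok_TMO : T_TMO := Pool.Agent.H76.GCL.pf_TMO ok_TRI
theorem ok_TEX : T_TEX := Pool.Agent.H76.GCL.pf_TEX ok_TMO
theorem ok_TSG : T_TSG := Pool.Agent.H76.GCL.pf_TSG ok_TMO
theorem ok_TNC : T_TNC := Pool.Agent.H52.GCL.pf_TNC
theorem ok_INB : T_INB := Pool.Agent.H76.GCL.pf_INB ok_TMO ok_TEX ok_TSG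
theorem ok_INV : T_INV := Pool.Agent.H76.GCL.pf_INV ok_INB ok_TMO
theorem ok_CMP : T_CMP := Pool.Agent.H76.GCL.pf_CMP ok_TMO
theorem ok_NOD : T_NOD := Pool.Agent.H76.GCL.pf_NOD ok_CMP pf_CVR
theorem ok_WLK : T_WLK := Pool.Agent.H52.GCL.pf_WLK
theorem ok_CHN : T_CHN := Pool.Agent.H76.GCL.pf_CHN ok_NOD ok_WLK ok_TNC
theorem ok_SHR : T_SHR := pf_SHR ok_CHN ok_NOD
theorem ok_SHC : T_SHC := pf_SHC ok_CHN ok_SHR
theorem ok_SZB : T_SZB := Pool.Agent.H52.GCL.pf_SZB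
theorem ok_CAN : T_CAN := pf_CAN ok_U_s3_id ok_U_s4_child ok_U_s6_sat ok_U_s7_node

/-- Small model property for containment of Regular Queries. -/
theorem ok_SMA : T_SMA :=
  Pool.Agent.H20.GCL.pf_SMA ok_SHC ok_INV ok_NOD ok_TNC ok_SZB pf_CRD ok_CAN ok_U_s8_hom
    ok_U_q6_mono

theorem ok_REL : T_REL := Pool.Agent.H72.GCL.pf_REL
theorem ok_HAT : T_HAT := Pool.Agent.H67.GCL.pf_HAT ok_REL
theorem ok_HSI : T_HSI := Pool.Agent.H67.GCL.pf_HSI ok_REL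
theorem ok_SBS : T_SBS := Pool.Agent.H76.GCL.pf_SBS ok_REL
theorem ok_SBW : T_SBW := Pool.Agent.H13.GCL.pf_SBW ok_REL
theorem ok_NAM : T_NAM := Pool.Agent.H76.GCL.pf_NAM
theorem ok_TRQ : T_TRQ := Pool.Agent.H99.GCL.pf_TRQ ok_U_d6_small
theorem ok_DEW : T_DEW := Pool.Agent.H99.GCL.pf_DEW ok_U_d6_small
theorem ok_PMX : T_PMX :=
  Pool.Agent.H79.GCL.pf_PMX ok_TRQ ok_DEW pf_DEA pf_DES ok_CAN ok_U_e2_top ok_U_q6_mono
    ok_U_s2_fin ok_U_s8_hom ok_U_d6_small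
theorem ok_ARI : T_ARI := pf_ARI ok_U_el1

/-- Maximal under-approximations. -/
theorem ok_PA1 : T_PA1 := pf_PA1 ok_HAT ok_HSI ok_SBS ok_SBW ok_NAM ok_PMX ok_ARI ok_U_t3_max

end Pool.Agent.H68.GCL
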