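import Pool.Agent.H76.SW.T2

/-!
MP_d2582e_lc, closure over guarded symbols: definitions (helper68).
-/

namespace Pool.Agent.H68.GCL

open Pool.Agent.H76.SW

/-- On every graph database the binary query relates only equal or adjacent nodes. -/
def Guarded {A : Type} (ω : RQ A) : Prop :=
  ∀ (V : Type) [Finite V] (E : V → A → V → Prop) (u v : V), ω.Sat E u v →
    u = v ∨ ∃ a, E u a v ∨ E v a u

/-- Guarded and of tree-width at most `k`. -/
def GW {A : Type} (k : ℕ) (ω : RQ A) : Prop := ω.Width k ∧ Guarded ω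

/-- Every atom has words over letters and symbols in `S` only, or is one further symbol. -/
def BodyGC {A : Type} {c : ℕ} (b : Body A c) (S : Fin c → Prop) : Prop :=
  ∀ i, (∀ w ∈ (b.aut i).accepts, ∀ l ∈ w, (∃ a, l.1 = Sum.inl a) ∨ ∃ j, l.1 = Sum.inr j ∧ S j) ∨
    ∃ j, (b.aut i).accepts = {[(Sum.inr j, true)]}

/-- Binary Regular Queries in which closure and composition are applied only to letters and to
guarded symbols of tree-width at most `k`. -/
def gc {A : Type} (k : ℕ) : RQ A → Prop
  | .cq _ b sub _ _ => BodyGC b (fun j => GW k (sub j)) ∧ ∀ j, GW k (sub j) ∨ gc k (sub j)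
  | .union _ sub => ∀ j, gc k (sub j)

/-- The same for queries of arity `r`. -/
def QGC {A : Type} {r : ℕ} (k : ℕ) (Γ : Query A r) : Prop :=
  ∀ t ∈ Γ, BodyGC t.b (fun j => GW k (t.sub j)) ∧ ∀ j, GW k (t.sub j) ∨ gc k (t.sub j)

/-! ### Relabelling -/

/-- Relabelling of an automaton. -/
def rel {L L' : Type} {s : ℕ} (f : L → L') (M : NFA L (Fin s)) : NFA L' (Fin s) where
  step x l' := {y | ∃ l, f l = l' ∧ y ∈ M.step x l}
  start := M.start
  accept := M.accept

/-- The database with an additional letter for each query `g i`. -/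
def plus {A V I : Type} (E : V → A → V → Prop) (g : I → RQ A) : V → A ⊕ I → V → Prop :=
  fun u l v => Sum.elim (fun a => E u a v) (fun i => (g i).Sat E u v) l

/-- The names: the members of the list `L`. -/
abbrev Nm {A : Type} (L : List (RQ A)) : Type := {ω : RQ A // ω ∈ L}

/-- The query which is never true. -/
def bot {A : Type} : RQ A := .union 0 (fun x => x.elim0)

open Classical in
/-- Symbols in the list become letters. -/
noncomputable def hl {A : Type} (L : List (RQ A)) {c : ℕ} (sub : Fin c → RQ A) :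
    (A ⊕ Fin c) × Bool → ((A ⊕ Nm L) ⊕ Fin c) × Bool
  | (Sum.inl a, β) => (Sum.inl (Sum.inl a), β)
  | (Sum.inr j, β) =>
      if h : sub j ∈ L then (Sum.inl (Sum.inr ⟨sub j, h⟩), β) else (Sum.inr j, β)

noncomputable def hatB {A : Type} (L : List (RQ A)) {c : ℕ} (b : Body A c) (sub : Fin c → RQ A) :
    Body (A ⊕ Nm L) c where
  n := b.n
  m := b.m
  src := b.src
  tgt := b.tgt
  st := b.st
  aut := fun i => rel (hl L sub) (b.aut i)

open Classical in
noncomputable def hat {A : Type} (L : List (RQ A)) : RQ A → RQ (A ⊕ Nm L)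
  | .cq c b sub p q =>
      .cq c (hatB L b sub) (fun j => if sub j ∈ L then bot else hat L (sub j)) p q
  | .union u sub => .union u (fun j => hat L (sub j))

open Classical in
noncomputable def hatC {A : Type} (L : List (RQ A)) {r : ℕ} (t : CRQ A r) : CRQ (A ⊕ Nm L) r where
  c := t.c
  b := hatB L t.b t.sub
  sub := fun j => if t.sub j ∈ L then bot else hat L (t.sub j)
  out := t.out

/-- All symbols occurring in a query. -/
def subs {A : Type} : RQ A → List (RQ A)
  | .cq _ _ sub _ _ => List.ofFn sub ++ (List.ofFn fun j => subs (sub j)).flatten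
  | .union _ sub => (List.ofFn fun j => subs (sub j)).flatten

def csubs {A : Type} {r : ℕ} (t : CRQ A r) : List (RQ A) :=
  List.ofFn t.sub ++ (List.ofFn fun j => subs (t.sub j)).flatten

open Classical in
/-- The names of the guarded symbols of width at most `k` in `Γ`. -/
noncomputable def names {A : Type} {r : ℕ} (k : ℕ) (Γ : Query A r) : List (RQ A) :=
  (Γ.flatMap csubs).filter fun ω => decide (GW k ω)

/-! ### Substitution -/

/-- Letters `i` become symbols. -/
def bl {A I : Type} {N : ℕ} (e : I ≃ Fin N) (c : ℕ) :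
    ((A ⊕ I) ⊕ Fin c) × Bool → (A ⊕ Fin (c + N)) × Bool
  | (Sum.inl (Sum.inl a), β) => (Sum.inl a, β)
  | (Sum.inl (Sum.inr i), β) => (Sum.inr (Fin.natAdd c (e i)), β)
  | (Sum.inr j, β) => (Sum.inr (Fin.castAdd N j), β)

def sbB {A I : Type} {N : ℕ} (e : I ≃ Fin N) {c : ℕ} (b : Body (A ⊕ I) c) : Body A (c + N) where
  n := b.n
  m := b.m
  src := b.src
  tgt := b.tgt
  st := b.st
  aut := fun i => rel (bl e c) (b.aut i)

/-- The symbols after the substitution. -/
def sbS {A I : Type} {N : ℕ} (e : I ≃ Fin N) (g : I → RQ A) {c : ℕ} (s : Fin c → RQ A) :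
    Fin (c + N) → RQ A :=
  fun x => Fin.addCases (motive := fun _ => RQ A) s (fun n => g (e.symm n)) x

/-- The letters `i` are replaced by the queries `g i`. -/
def sb {A I : Type} {N : ℕ} (e : I ≃ Fin N) (g : I → RQ A) : RQ (A ⊕ I) → RQ A
  | .cq c b sub p q => .cq (c + N) (sbB e b) (sbS e g fun j => sb e g (sub j)) p q
  | .union u sub => .union u (fun j => sb e g (sub j))

def sbC {A I : Type} {N : ℕ} (e : I ≃ Fin N) (g : I → RQ A) {r : ℕ} (t : CRQ (A ⊕ I) r) :
    CRQ A r where
  c := t.c + N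
  b := sbB e t.b
  sub := sbS e g fun j => sb e g (t.sub j)
  out := t.out

/-! ### Terms as queries, decorated terms -/

/-- The automaton of one letter. -/
def letA {L : Type} (l : L) : NFA L (Fin 2) where
  step x l' := {y | x = 0 ∧ l' = l ∧ y = 1}
  start := {0}
  accept := {1}

/-- A conjunction of symbols. -/
def symB (A : Type) {n m : ℕ} (src tgt : Fin m → Fin n) : Body A m where
  n := n
  m := m
  src := src
  tgt := tgt
  st := fun _ => 2
  aut := fun i => letA (Sum.inr i, true)

/-- A single edge. -/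
def edgB {A : Type} (a : A) : Body A 0 where
  n := 2
  m := 1
  src := fun _ => 0
  tgt := fun _ => 1
  st := fun _ => 2
  aut := fun _ => letA (Sum.inl a, true)

/-- A term as a query. -/
def toRQ {A : Type} : Term A → RQ A
  | .edge a => .cq 0 (edgB a) (fun j => j.elim0) (0 : Fin 2) (1 : Fin 2)
  | .node _ m src tgt ch p q => .cq m (symB A src tgt) (fun i => toRQ (ch i)) p q

/-- The trivial term: two unrelated variables. -/
def triv {A : Type} : Term A :=
  .node 2 0 (fun x => x.elim0) (fun x => x.elim0) (fun x => x.elim0) 0 1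

open Classical in
/-- The edge `a` if `P` holds, the trivial term otherwise. -/
noncomputable def opt {A : Type} (P : Prop) (a : A) : Term A := if P then .edge a else triv

def bz (s : Bool) : Fin 2 := if s then 1 else 0

/-- The children of a decorated edge. -/
def eSrc {I : Type} : Option (I × Bool × Bool) → Fin 2
  | none => 0
  | some x => bz x.2.1

def eTgt {I : Type} : Option (I × Bool × Bool) → Fin 2
  | none => 1
  | some x => bz x.2.2

noncomputable def eCh {A V I : Type} (F : V → A ⊕ I → V → Prop) (a : A) (h : Bool → V) :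
    Option (I × Bool × Bool) → Term (A ⊕ I)
  | none => .edge (Sum.inl a)
  | some x => opt (F (h x.2.1) (Sum.inr x.1) (h x.2.2)) (Sum.inr x.1)

/-- The children of a decorated node. -/
def nSrc {I : Type} {n m : ℕ} (src : Fin m → Fin n) : Fin m ⊕ (I × Fin n) → Fin n :=
  Sum.elim src Prod.snd

noncomputable def nLoop {A V I : Type} {n : ℕ} (F : V → A ⊕ I → V → Prop) (h : Fin n → V)
    (x : I × Fin n) : Term (A ⊕ I) :=
  opt (F (h x.2) (Sum.inr x.1) (h x.2)) (Sum.inr x.1)

/-- Numbering of the children. -/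
noncomputable def dSrc (I : Type) [Finite I] {n m : ℕ} (src : Fin m → Fin n) :
    Fin (Nat.card (Fin m ⊕ (I × Fin n))) → Fin n :=
  fun x => nSrc src ((Finite.equivFin (Fin m ⊕ (I × Fin n))).symm x)

noncomputable def dCh {A I : Type} [Finite I] {n m : ℕ} (ch : Fin m → Term (A ⊕ I))
    (lp : I × Fin n → Term (A ⊕ I)) : Fin (Nat.card (Fin m ⊕ (I × Fin n))) → Term (A ⊕ I) :=
  fun x => Sum.elim ch lp ((Finite.equivFin (Fin m ⊕ (I × Fin n))).symm x)

/-- The term with all additional edges of `F` between equal or adjacent positions. -/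
noncomputable def decT {A V I : Type} [Finite I] (F : V → A ⊕ I → V → Prop) :
    (T : Term A) → (T.Pos → V) → Term (A ⊕ I)
  | .edge a, h =>
      .node 2 (Nat.card (Option (I × Bool × Bool)))
        (fun x => eSrc ((Finite.equivFin (Option (I × Bool × Bool))).symm x))
        (fun x => eTgt ((Finite.equivFin (Option (I × Bool × Bool))).symm x))
        (fun x => eCh F a h ((Finite.equivFin (Option (I × Bool × Bool))).symm x)) 0 1
  | .node n m src tgt ch p q, h =>
      .node n (Nat.card (Fin m ⊕ (I × Fin n))) (dSrc I src) (dSrc I tgt)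
        (dCh (fun i => decT F (ch i) (fun y => h (Sum.inr ⟨i, y⟩)))
          (nLoop F fun v => h (Sum.inl v))) p q

/-- `ν` interprets the decorated term. -/
structure Asg {A V W I : Type} (F : V → A ⊕ I → V → Prop) (T : Term A) (h : T.Pos → V)
    (G : W → A ⊕ I → W → Prop) (ν : T.Pos → W) : Prop where
  sil : ∀ x y, T.stp x none y → ν x = ν y
  lab : ∀ x a y, T.stp x (some (a, true)) y → G (ν x) (Sum.inl a) (ν y)
  loop : ∀ x i, F (h x) (Sum.inr i) (h x) → G (ν x) (Sum.inr i) (ν x)
  fwd : ∀ x a y i, T.stp x (some (a, true)) y → F (h x) (Sum.inr i) (h y) →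
    G (ν x) (Sum.inr i) (ν y)
  bwd : ∀ x a y i, T.stp x (some (a, true)) y → F (h y) (Sum.inr i) (h x) →
    G (ν y) (Sum.inr i) (ν x)

/-! ### Types -/

/-- Atomic facts about `s` sets: edges, inclusion, nonempty, ports. -/
abbrev Fct (A J : Type) (s : ℕ) : Type :=
  (A × Fin s × Fin s) ⊕ (Fin s × Fin s) ⊕ Fin s ⊕ (J × Fin s)

/-- Types of rank `q` with `s` sets. -/
def Ty (A J : Type) : ℕ → ℕ → Type
  | 0, s => Set (Fct A J s)
  | q + 1, s => Set (Ty A J q (s + 1))

/-- The atomic facts. -/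
def facts {A J V : Type} (E : V → A → V → Prop) (c : J → V) {s : ℕ} (X : Fin s → Set V) :
    Set (Fct A J s) :=
  fun f => match f with
    | .inl (a, σ, τ) => ∃ x ∈ X σ, ∃ y ∈ X τ, E x a y
    | .inr (.inl (σ, τ)) => X σ ⊆ X τ
    | .inr (.inr (.inl σ)) => (X σ).Nonempty
    | .inr (.inr (.inr (j, σ))) => c j ∈ X σ

/-- One more set. -/
def snc {V : Type} {s : ℕ} (X : Fin s → Set V) (Y : Set V) : Fin (s + 1) → Set V :=
  Fin.snoc (α := fun _ => Set V) X Y

/-- The type of rank `q` of the sets `X`. -/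
def tp {A J V : Type} (E : V → A → V → Prop) (c : J → V) :
    (q : ℕ) → {s : ℕ} → (Fin s → Set V) → Ty A J q s
  | 0, _, X => facts E c X
  | q + 1, _, X => {τ | ∃ Y : Set V, τ = tp E c q (snc X Y)}

/-- The number of types. -/
def nT (a j : ℕ) : ℕ → ℕ → ℕ
  | 0, s => 2 ^ (a * (s * s) + (s * s + (s + j * s)))
  | q + 1, s => 2 ^ nT a j q (s + 1)

/-- The rank needed for a query. -/
def rk {A : Type} : RQ A → ℕ
  | .cq _ b sub _ _ => b.n + (∑ i, b.st i) + 3 + ∑ j, rk (sub j)
  | .union _ sub => ∑ j, rk (sub j)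

/-- The same for arity `r`. -/
def rkC {A : Type} {r : ℕ} (t : CRQ A r) : ℕ :=
  t.b.n + (∑ i, t.b.st i) + 3 + ∑ j, rk (t.sub j)

/-- `R` is transferred to `R'` by equality of types of rank `q`. -/
def Tr {A J V V' : Type} (E : V → A → V → Prop) (c : J → V) (E' : V' → A → V' → Prop)
    (c' : J → V') (q : ℕ) (R : V → V → Prop) (R' : V' → V' → Prop) : Prop :=
  ∀ (s : ℕ) (X : Fin s → Set V) (X' : Fin s → Set V') (σ τ : Fin s) (x y : V) (x' y' : V'),
    X σ = {x} → X τ = {y} → X' σ = {x'} → X' τ = {y'} → tp E c q X = tp E' c' q X' →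
    R x y → R' x' y'

/-- The structure `(V, E)` is glued from the pieces `(Vi i, Ei i)` with ports `ci i` along the
nodes `Fin n`. -/
structure Cover {A V : Type} {n m : ℕ} (E : V → A → V → Prop) (β : Fin n → V)
    (Vi : Fin m → Type) (Ei : (i : Fin m) → Vi i → A → Vi i → Prop)
    (ci : (i : Fin m) → Bool → Vi i) (src tgt : Fin m → Fin n) (ε : (i : Fin m) → Vi i → V) :
    Prop where
  surj : ∀ v, (∃ x, β x = v) ∨ ∃ i y, ε i y = v
  edge : ∀ u a v, E u a v ↔ ∃ i x y, ε i x = u ∧ ε i y = v ∧ Ei i x a y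
  prt : ∀ i b, ε i (ci i b) = β (if b then tgt i else src i)
  univ : ∀ (U : Set (Fin n)) (Y : (i : Fin m) → Set (Vi i)),
    (∀ i b, ci i b ∈ Y i ↔ (if b then tgt i else src i) ∈ U) →
    ∃ Z : Set V, (∀ x, β x ∈ Z ↔ x ∈ U) ∧ ∀ i y, ε i y ∈ Z ↔ y ∈ Y i

/-- The type of a term. -/
def tt {A : Type} (q : ℕ) (T : Term A) : Ty A Bool q 0 :=
  tp (canon T.stp) (fun b => cl _ (T.pt b)) q Fin.elim0

/-- The type of a node with output variables. -/
def ttop {A : Type} {n m r : ℕ} (q : ℕ) (src tgt : Fin m → Fin n) (ch : Fin m → Term A)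
    (v0 : Fin n) (out : Fin r → Fin n) : Ty A (Fin r) q 0 :=
  tp (canon (Term.node n m src tgt ch v0 v0).stp) (fun j => cl _ (Sum.inl (out j))) q Fin.elim0

/-- The number of positions. -/
def sz {A : Type} : Term A → ℕ
  | .edge _ => 2
  | .node n _ _ _ ch _ _ => n + ∑ i, sz (ch i)

/-- Chains. -/
def epsT {A : Type} : Term A := .node 1 0 (fun x => x.elim0) (fun x => x.elim0) (fun x => x.elim0) 0 0

def seqT {A : Type} (T1 T2 : Term A) : Term A := .node 3 2 ![0, 1] ![1, 2] ![T1, T2] 0 2

def revT {A : Type} (T : Term A) : Term A :=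
  .node 2 1 (fun _ => 1) (fun _ => 0) (fun _ => T) 0 1

def lnk {A : Type} (T : Term A) (β : Bool) : Term A := if β then T else revT T

/-- Every database satisfying `T` satisfies `ω`. -/
def Snd {A : Type} (T : Term A) (ω : RQ A) : Prop :=
  ∀ (V : Type) (E : V → A → V → Prop) (u v : V), T.Sat E u v → ω.Sat E u v

/-- Size of a short chain with `st` states, `ν` types and links of size `N`. -/
def CH (st ν N : ℕ) : ℕ := 1 + st * ν * (5 + N)

/-- Size of a small expansion. -/
def SZ {A : Type} (ν : ℕ) : RQ A → ℕ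
  | .cq _ b sub _ _ => b.n + ∑ i, CH (b.st i) ν (2 + ∑ j, SZ ν (sub j))
  | .union _ sub => ∑ j, SZ ν (sub j)

def SZC {A : Type} {r : ℕ} (ν : ℕ) (t : CRQ A r) : ℕ :=
  t.b.n + ∑ i, CH (t.b.st i) ν (2 + ∑ j, SZ ν (t.sub j))

/-- Bound for the number of nodes of a counterexample to a containment of a query of size `s` in
a query of size `s'` over `a` letters. -/
def SMB (a s s' : ℕ) : ℕ := (10 * (nT a 2 (3 * s') 0 + 1)) ^ (s + 1)

/-- Bound for the size of the maximal under-approximation. -/
def BD (c r s : ℕ) : ℕ := (2 ^ 2 ^ 2 ^ (c * (s + 1))) ^ (r + 1)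

end Pool.Agent.H68.GCL
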