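import Pool.Agent.H68.GCL.Targets

/-!
Maximal under-approximations (helper68).
-/

namespace Pool.Agent.H68.GCL

open Pool.Agent.H76.SW

theorem map_size {A B : Type} {r r' : ℕ} (f : CRQ A r → CRQ B r') (K : ℕ)
    (hf : ∀ t, (f t).size ≤ t.size * K) (Γ : Query A r) :
    Query.size (Γ.map f) ≤ Γ.size * K := by
  induction Γ with
  | nil => simp [Query.size]
  | cons t Γ ih =>
      have h1 := hf t
      have h2 : Query.size ((t :: Γ).map f) = (f t).size + Query.size (Γ.map f) := by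
        simp [Query.size]
      have h3 : Query.size (t :: Γ) = t.size + Query.size Γ := by
        simp [Query.size]
      rw [h2, h3, add_mul]
      exact Nat.add_le_add h1 ih

theorem map_sat {A B V : Type} {r : ℕ} (f : CRQ A r → CRQ B r) (E : V → A → V → Prop)
    (F : V → B → V → Prop) (hf : ∀ (t : CRQ A r) (z : Fin r → V), (f t).Sat F z ↔ t.Sat E z)
    (Γ : Query A r) (z : Fin r → V) :
    Query.Sat (Γ.map f) F z ↔ Γ.Sat E z := by
  constructor
  · rintro ⟨t', ht', hs⟩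
    obtain ⟨t, ht, rfl⟩ := List.mem_map.1 ht'
    exact ⟨t, ht, (hf t z).1 hs⟩
  · rintro ⟨t, ht, hs⟩
    exact ⟨f t, List.mem_map.2 ⟨t, ht, rfl⟩, (hf t z).2 hs⟩

theorem pf_PA1 (h1 : T_HAT) (h2 : T_HSI) (h3 : T_SBS) (h4 : T_SBW) (h5 : T_NAM) (h6 : T_PMX)
    (h7 : T_ARI) (h8 : U_t3_max) : T_PA1 := by
  intro k hk
  obtain ⟨c, hc⟩ := h7 k
  refine ⟨c, fun r A Γ hΓ => ?_⟩
  obtain ⟨hn1, hn2, hn3⟩ := h5 k Γ
  have hfin : Finite (Nm (names k Γ)) := List.finite_toSet (names k Γ)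
  have hg : ∀ i : Nm (names k Γ), GW k i.1 := fun i => hn1 i.1 i.2
  obtain ⟨Δh, hw, hs, hsz, hle, hmax⟩ := h8 (A := A ⊕ Nm (names k Γ)) k hk r
    (Γ.map (hatC (names k Γ))) (by
      intro t' ht'
      obtain ⟨t, ht, rfl⟩ := List.mem_map.1 ht'
      exact (h2 k (names k Γ)).2.2.1 r t (hΓ t ht).1 (hΓ t ht).2 (hn2 t ht))
  have hsat : ∀ (V : Type) [Finite V] (E : V → A → V → Prop) (z : Fin r → V),
      Γ.Sat E z ↔ Query.Sat (Γ.map (hatC (names k Γ)))
        (plus E (fun x : Nm (names k Γ) => x.1)) z := by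
    intro V _ E z
    exact (map_sat (hatC (names k Γ)) E _ (fun t z' => (h1 (names k Γ) E).2 r t z') Γ z).symm
  have hsat2 : ∀ (V : Type) [Finite V] (E : V → A → V → Prop) (z : Fin r → V),
      Query.Sat (Δh.map (sbC (Finite.equivFin (Nm (names k Γ)))
        (fun x : Nm (names k Γ) => x.1))) E z ↔
        Δh.Sat (plus E (fun x : Nm (names k Γ) => x.1)) z := by
    intro V _ E z
    exact map_sat _ _ E (fun t z' => (h3 (Finite.equivFin (Nm (names k Γ)))
      (fun x : Nm (names k Γ) => x.1) E).2 r t z') Δh z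
  have hsb := (h4 k (Finite.equivFin (Nm (names k Γ))) (fun x : Nm (names k Γ) => x.1) hg).2.2.2 r
  refine ⟨Δh.map (sbC (Finite.equivFin (Nm (names k Γ))) (fun x : Nm (names k Γ) => x.1)),
    ?_, ?_, ?_, ?_, ?_⟩
  · intro t' ht'
    obtain ⟨t, ht, rfl⟩ := List.mem_map.1 ht'
    exact (hsb t).1 (hw t ht)
  · intro t' ht'
    obtain ⟨t, ht, rfl⟩ := List.mem_map.1 ht'
    exact (hsb t).2.1 (hs t ht)
  · have hs1 : Query.size (Γ.map (hatC (names k Γ))) ≤ Γ.size := by
      have := map_size (hatC (names k Γ)) 1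
        (fun t => by rw [mul_one]; exact (h2 k (names k Γ)).2.2.2 r t) Γ
      rwa [mul_one] at this
    refine (map_size _ _ (fun t => (hsb t).2.2) Δh).trans ?_
    refine le_trans ?_ (hc r Γ.size _ hs1)
    refine Nat.mul_le_mul hsz ?_
    have h9 := hn3 _ (Finite.equivFin (Nm (names k Γ)))
    omega
  · intro V _ E z hz
    exact (hsat V E z).2 (hle V _ z ((hsat2 V E z).1 hz))
  · exact h6 k hk r (fun x : Nm (names k Γ) => x.1) hg (Γ.map (hatC (names k Γ))) Δh Γ _
      hsat hsat2 hmax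

end Pool.Agent.H68.GCL
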