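import Pool.Agent.H68.GCL.Defs

/-!
MP_d2582e_lc, closure over guarded symbols: statements of the modules (helper68).
-/

set_option linter.unusedVariables false

namespace Pool.Agent.H68.GCL

open Pool.Agent.H76.SW

/-- Relabelled automata and relabelled paths. -/
def T_REL : Prop :=
  (∀ {L L' : Type} {s : ℕ} (f : L → L') (M : NFA L (Fin s)) (w' : List L'),
    w' ∈ (rel f M).accepts ↔ ∃ w ∈ M.accepts, w.map f = w') ∧
  (∀ {Λ Λ' V : Type} (f : Λ × Bool → Λ' × Bool) (F : V → Λ → V → Prop) (F' : V → Λ' → V → Prop),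
    (∀ l u v, Step F' u (f l) v ↔ Step F u l v) →
    ∀ (w : List (Λ × Bool)) (u v : V), Path F' u (w.map f) v ↔ Path F u w v)

/-- Symbols as letters: evaluation. -/
def T_HAT : Prop :=
  ∀ {A V : Type} (L : List (RQ A)) (E : V → A → V → Prop),
    (∀ (ω : RQ A) (u v : V), (hat L ω).Sat (plus E (fun x : Nm L => x.1)) u v ↔ ω.Sat E u v) ∧
    ∀ (r : ℕ) (t : CRQ A r) (z : Fin r → V),
      (hatC L t).Sat (plus E (fun x : Nm L => x.1)) z ↔ t.Sat E z

/-- Symbols as letters: the result is simple, the size does not grow. -/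
def T_HSI : Prop :=
  ∀ {A : Type} (k : ℕ) (L : List (RQ A)),
    (∀ ω : RQ A, gc k ω → (∀ x ∈ subs ω, GW k x → x ∈ L) → (hat L ω).Simple) ∧
    (∀ ω : RQ A, (hat L ω).size ≤ ω.size) ∧
    (∀ (r : ℕ) (t : CRQ A r), BodyGC t.b (fun j => GW k (t.sub j)) →
      (∀ j, GW k (t.sub j) ∨ gc k (t.sub j)) → (∀ x ∈ csubs t, GW k x → x ∈ L) →
      (hatC L t).Simple) ∧
    ∀ (r : ℕ) (t : CRQ A r), (hatC L t).size ≤ t.size

/-- Substitution: evaluation. -/
def T_SBS : Prop :=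
  ∀ {A I V : Type} {N : ℕ} (e : I ≃ Fin N) (g : I → RQ A) (E : V → A → V → Prop),
    (∀ (ω : RQ (A ⊕ I)) (u v : V), (sb e g ω).Sat E u v ↔ ω.Sat (plus E g) u v) ∧
    ∀ (r : ℕ) (t : CRQ (A ⊕ I) r) (z : Fin r → V), (sbC e g t).Sat E z ↔ t.Sat (plus E g) z

/-- Substitution: width, form and size. -/
def T_SBW : Prop :=
  ∀ {A I : Type} {N : ℕ} (k : ℕ) (e : I ≃ Fin N) (g : I → RQ A) (hg : ∀ i, GW k (g i)),
    (∀ ω : RQ (A ⊕ I), ω.Width k → (sb e g ω).Width k) ∧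
    (∀ ω : RQ (A ⊕ I), ω.Simple → gc k (sb e g ω)) ∧
    (∀ ω : RQ (A ⊕ I), (sb e g ω).size ≤ ω.size * (1 + (N + ∑ n, (g (e.symm n)).size))) ∧
    ∀ (r : ℕ) (t : CRQ (A ⊕ I) r),
      (t.Width k → (sbC e g t).Width k) ∧
      (t.Simple → BodyGC (sbC e g t).b (fun j => GW k ((sbC e g t).sub j)) ∧
        ∀ j, GW k ((sbC e g t).sub j) ∨ gc k ((sbC e g t).sub j)) ∧
      (sbC e g t).size ≤ t.size * (1 + (N + ∑ n, (g (e.symm n)).size))

/-- The list of names. -/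
def T_NAM : Prop :=
  ∀ {A : Type} {r : ℕ} (k : ℕ) (Γ : Query A r),
    (∀ x ∈ names k Γ, GW k x) ∧
    (∀ t ∈ Γ, ∀ x ∈ csubs t, GW k x → x ∈ names k Γ) ∧
    ∀ (N : ℕ) (e : Nm (names k Γ) ≃ Fin N), N + ∑ n, ((e.symm n).1).size ≤ 2 * Γ.size ^ 2

/-- Terms as queries. -/
def T_TRQ : Prop :=
  ∀ {A : Type},
    (∀ (T : Term A) (V : Type) (E : V → A → V → Prop) (u v : V),
      (toRQ T).Sat E u v ↔ T.Sat E u v) ∧
    (∀ (T : Term A) (k : ℕ), 1 ≤ k → T.Width k → (toRQ T).Width k) ∧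
    ∀ {n m r : ℕ} (src tgt : Fin m → Fin n) (ch : Fin m → Term A) (out : Fin r → Fin n),
      (∀ (V : Type) (E : V → A → V → Prop) (z : Fin r → V),
        (⟨m, symB A src tgt, fun i => toRQ (ch i), out⟩ : CRQ A r).Sat E z ↔
          ∃ μ : Fin n → V, (∀ i, (ch i).Sat E (μ (src i)) (μ (tgt i))) ∧ ∀ j, μ (out j) = z j) ∧
      ∀ k : ℕ, 1 ≤ k → TreeWidthLE (torso src tgt) k → (∀ i, (ch i).Width k) →
        (⟨m, symB A src tgt, fun i => toRQ (ch i), out⟩ : CRQ A r).Width k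

/-- Decorated terms: width. -/
def T_DEW : Prop :=
  ∀ {A V I : Type} [Finite I] (F : V → A ⊕ I → V → Prop) (k : ℕ) (hk : 1 ≤ k) (T : Term A)
    (h : T.Pos → V), T.Width k → (decT F T h).Width k

/-- Decorated terms: a satisfied decorated term gives an assignment. -/
def T_DEA : Prop :=
  ∀ {A V W I : Type} [Finite I] (F : V → A ⊕ I → V → Prop) (G : W → A ⊕ I → W → Prop),
    (∀ (T : Term A) (h : T.Pos → V) (u v : W), (decT F T h).Sat G u v →
      ∃ ν : T.Pos → W, Asg F T h G ν ∧ ν (T.pt false) = u ∧ ν (T.pt true) = v) ∧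
    ∀ {n m : ℕ} (src tgt : Fin m → Fin n) (ch : Fin m → Term A) (p q : Fin n)
      (h : (Term.node n m src tgt ch p q).Pos → V) (μ : Fin n → W),
      (∀ x, (dCh (fun i => decT F (ch i) (fun y => h (Sum.inr ⟨i, y⟩)))
          (nLoop F fun v => h (Sum.inl v)) x).Sat G (μ (dSrc I src x)) (μ (dSrc I tgt x))) →
      ∃ ν : (Term.node n m src tgt ch p q).Pos → W,
        Asg F (Term.node n m src tgt ch p q) h G ν ∧ ∀ x, ν (Sum.inl x) = μ x

/-- Decorated terms are satisfied in `F`. -/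
def T_DES : Prop :=
  ∀ {A V I : Type} [Finite I] (F : V → A ⊕ I → V → Prop),
    (∀ (T : Term A) (h : T.Pos → V), (∀ x y, T.stp x none y → h x = h y) →
      (∀ x a y, T.stp x (some (a, true)) y → F (h x) (Sum.inl a) (h y)) →
      (decT F T h).Sat F (h (T.pt false)) (h (T.pt true))) ∧
    ∀ {n m : ℕ} (src tgt : Fin m → Fin n) (ch : Fin m → Term A) (p q : Fin n)
      (h : (Term.node n m src tgt ch p q).Pos → V),
      (∀ x y, (Term.node n m src tgt ch p q).stp x none y → h x = h y) →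
      (∀ x a y, (Term.node n m src tgt ch p q).stp x (some (a, true)) y →
        F (h x) (Sum.inl a) (h y)) →
      ∀ x, (dCh (fun i => decT F (ch i) (fun y => h (Sum.inr ⟨i, y⟩)))
          (nLoop F fun v => h (Sum.inl v)) x).Sat F (h (Sum.inl (dSrc I src x)))
          (h (Sum.inl (dSrc I tgt x)))

/-- The children of a node are satisfied in its canonical database. -/
def T_CAN : Prop :=
  ∀ {A : Type} {n m : ℕ} (src tgt : Fin m → Fin n) (ch : Fin m → Term A) (p q : Fin n)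
    (i : Fin m),
    (ch i).Sat (canon (Term.node n m src tgt ch p q).stp)
      (cl (Term.node n m src tgt ch p q).stp (Sum.inl (src i)))
      (cl (Term.node n m src tgt ch p q).stp (Sum.inl (tgt i)))

/-- Maximality is transferred by the substitution. -/
def T_PMX : Prop :=
  ∀ {A I : Type} [Finite I] (k : ℕ) (hk : 1 ≤ k) (r : ℕ) (g : I → RQ A) (hg : ∀ i, GW k (g i))
    (Γh Δh : Query (A ⊕ I) r) (Γ Δ : Query A r),
    (∀ (V : Type) [Finite V] (E : V → A → V → Prop) (z : Fin r → V),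
      Γ.Sat E z ↔ Γh.Sat (plus E g) z) →
    (∀ (V : Type) [Finite V] (E : V → A → V → Prop) (z : Fin r → V),
      Δ.Sat E z ↔ Δh.Sat (plus E g) z) →
    (∀ Ω : Query (A ⊕ I) r, Ω.Width k → Ω.Le Γh → Ω.Le Δh) →
    ∀ Ω : Query A r, Ω.Width k → Ω.Le Γ → Ω.Le Δ

/-- Arithmetic. -/
def T_ARI : Prop :=
  ∀ k : ℕ, ∃ c : ℕ, ∀ r s s' : ℕ, s' ≤ s →
    (1 + BB k r (2 ^ s') s') * (1 + 2 * s ^ 2) ≤ BD c r s

/-- Maximal under-approximations. -/
def T_PA1 : Prop :=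
  ∀ k : ℕ, 1 ≤ k → ∃ c : ℕ, ∀ (r : ℕ) (A : Type) (Γ : Query A r), QGC k Γ →
    ∃ Δ : Query A r, Δ.Width k ∧ QGC k Δ ∧ Δ.size ≤ BD c r Γ.size ∧ Δ.Le Γ ∧
      ∀ Ω : Query A r, Ω.Width k → Ω.Le Γ → Ω.Le Δ

/-! ### Types -/

/-- Reindexing of types. -/
def T_TRI : Prop :=
  ∀ {A J V V' : Type} (E : V → A → V → Prop) (c : J → V) (E' : V' → A → V' → Prop) (c' : J → V')
    (q s s' : ℕ) (π : Fin s' → Fin s) (X : Fin s → Set V) (X' : Fin s → Set V'),
    tp E c q X = tp E' c' q X' →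
    tp E c q (fun σ => X (π σ)) = tp E' c' q (fun σ => X' (π σ))

/-- Lower ranks, atomic facts, extension by one set. -/
def T_TMO : Prop :=
  ∀ {A J V V' : Type} (E : V → A → V → Prop) (c : J → V) (E' : V' → A → V' → Prop) (c' : J → V'),
    (∀ (q q' s : ℕ) (X : Fin s → Set V) (X' : Fin s → Set V'), q' ≤ q →
      tp E c q X = tp E' c' q X' → tp E c q' X = tp E' c' q' X') ∧
    (∀ (q s : ℕ) (X : Fin s → Set V) (X' : Fin s → Set V'),
      tp E c q X = tp E' c' q X' → facts E c X = facts E' c' X') ∧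
    ∀ (q s : ℕ) (X : Fin s → Set V) (X' : Fin s → Set V'),
      tp E c (q + 1) X = tp E' c' (q + 1) X' →
      ∀ Y : Set V, ∃ Y' : Set V', tp E c q (snc X Y) = tp E' c' q (snc X' Y')

/-- Extension by several sets. -/
def T_TEX : Prop :=
  ∀ {A J V V' : Type} (E : V → A → V → Prop) (c : J → V) (E' : V' → A → V' → Prop) (c' : J → V')
    (q n s : ℕ) (X : Fin s → Set V) (X' : Fin s → Set V'),
    tp E c (q + n) X = tp E' c' (q + n) X' →
    ∀ Z : Fin n → Set V, ∃ Z' : Fin n → Set V',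
      tp E c q (Fin.append X Z) = tp E' c' q (Fin.append X' Z')

/-- Singletons. -/
def T_TSG : Prop :=
  ∀ {A J V V' : Type} (E : V → A → V → Prop) (c : J → V) (E' : V' → A → V' → Prop) (c' : J → V')
    (q s : ℕ) (X : Fin s → Set V) (X' : Fin s → Set V') (σ : Fin s) (u : V),
    tp E c (q + 1) X = tp E' c' (q + 1) X' → X σ = {u} → ∃ u', X' σ = {u'}

/-- The number of types. -/
def T_TNC : Prop :=
  ∀ (A J : Type) [Finite A] [Finite J] (q s : ℕ),
    Finite (Ty A J q s) ∧ Nat.card (Ty A J q s) = nT (Nat.card A) (Nat.card J) q s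

/-- Bodies are transferred. -/
def T_INB : Prop :=
  ∀ {A J V V' : Type} (E : V → A → V → Prop) (c : J → V) (E' : V' → A → V' → Prop) (c' : J → V')
    {c0 : ℕ} (b : Body A c0) (R : Fin c0 → V → V → Prop) (R' : Fin c0 → V' → V' → Prop) (q : ℕ),
    (∀ j, Tr E c E' c' q (R j) (R' j)) →
    ∀ (s : ℕ) (X : Fin s → Set V) (X' : Fin s → Set V'),
      tp E c (q + b.n + (∑ i, b.st i) + 3) X = tp E' c' (q + b.n + (∑ i, b.st i) + 3) X' →
      ∀ μ : Fin b.n → V, b.Holds E R μ →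
        ∃ μ' : Fin b.n → V', b.Holds E' R' μ' ∧ (∀ v σ, μ v ∈ X σ → μ' v ∈ X' σ) ∧
          ∀ v j, c j = μ v → c' j = μ' v

/-- Queries are transferred. -/
def T_INV : Prop :=
  ∀ {A : Type},
    (∀ {J V V' : Type} (E : V → A → V → Prop) (c : J → V) (E' : V' → A → V' → Prop) (c' : J → V')
      (δ : RQ A) (q : ℕ), rk δ ≤ q → Tr E c E' c' q (δ.Sat E) (δ.Sat E')) ∧
    ∀ {V V' : Type} (E : V → A → V → Prop) (E' : V' → A → V' → Prop) {r : ℕ} (Δ : Query A r)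
      (z : Fin r → V) (z' : Fin r → V'),
      tp E z (3 * Δ.size) (Fin.elim0 : Fin 0 → Set V) =
        tp E' z' (3 * Δ.size) (Fin.elim0 : Fin 0 → Set V') →
      Δ.Sat E z → Δ.Sat E' z'

/-- Composition. -/
def T_CMP : Prop :=
  ∀ {A J V V' : Type} {n m : ℕ} (E : V → A → V → Prop) (β : Fin n → V)
    (Vi : Fin m → Type) (Ei : (i : Fin m) → Vi i → A → Vi i → Prop)
    (ci : (i : Fin m) → Bool → Vi i) (src tgt : Fin m → Fin n) (ε : (i : Fin m) → Vi i → V)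
    (E' : V' → A → V' → Prop) (β' : Fin n → V')
    (Vi' : Fin m → Type) (Ei' : (i : Fin m) → Vi' i → A → Vi' i → Prop)
    (ci' : (i : Fin m) → Bool → Vi' i) (ε' : (i : Fin m) → Vi' i → V')
    (hC : Cover E β Vi Ei ci src tgt ε) (hC' : Cover E' β' Vi' Ei' ci' src tgt ε')
    (κ : J → Fin n) (q s : ℕ) (X : Fin s → Set V) (X' : Fin s → Set V'),
    (∀ x σ, β x ∈ X σ ↔ β' x ∈ X' σ) →
    (∀ i, tp (Ei i) (ci i) q (fun σ => {y | ε i y ∈ X σ}) =
      tp (Ei' i) (ci' i) q (fun σ => {y | ε' i y ∈ X' σ})) →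
    tp E (fun j => β (κ j)) q X = tp E' (fun j => β' (κ j)) q X'

/-- The canonical database of a node is glued from those of its children. -/
def T_CVR : Prop :=
  ∀ {A : Type} {n m : ℕ} (src tgt : Fin m → Fin n) (ch : Fin m → Term A) (p q : Fin n),
    ∃ ε : (i : Fin m) → Cv (ch i).stp → Cv (Term.node n m src tgt ch p q).stp,
      Cover (canon (Term.node n m src tgt ch p q).stp) (fun x => cl _ (Sum.inl x))
        (fun i => Cv (ch i).stp) (fun i => canon (ch i).stp) (fun i b => cl _ ((ch i).pt b))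
        src tgt ε

/-- Types of nodes. -/
def T_NOD : Prop :=
  ∀ {A : Type} (q : ℕ) {n m : ℕ} (src tgt : Fin m → Fin n) (ch ch' : Fin m → Term A),
    (∀ i, tt q (ch i) = tt q (ch' i)) →
    (∀ p p' : Fin n,
      tt q (Term.node n m src tgt ch p p') = tt q (Term.node n m src tgt ch' p p')) ∧
    ∀ (r : ℕ) (v0 : Fin n) (out : Fin r → Fin n),
      ttop q src tgt ch v0 out = ttop q src tgt ch' v0 out

/-- Short walks. -/
def T_WLK : Prop :=
  ∀ {α : Type} [Finite α] (R : α → α → Prop) (a b : α), Relation.ReflTransGen R a b →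
    ∃ (n : ℕ) (f : ℕ → α), n ≤ Nat.card α ∧ f 0 = a ∧ f n = b ∧ ∀ i < n, R (f i) (f (i + 1))

/-- Short chains. -/
def T_CHN : Prop :=
  ∀ {A Λ : Type} [Finite A] {st : ℕ} (q N : ℕ) (M : NFA (Λ × Bool) (Fin st))
    (K0 K : Λ → Set (Term A)),
    (∀ l, ∀ T ∈ K0 l, ∃ T' ∈ K l, tt q T' = tt q T ∧ sz T' ≤ N) →
    ∀ (V : Type) (E : V → A → V → Prop) (u v : V),
      (∃ w ∈ M.accepts, Path (fun x l y => ∃ T ∈ K0 l, T.Sat E x y) u w v) →
      ∃ T0 T : Term A, T0.Sat E u v ∧ tt q T = tt q T0 ∧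
        sz T ≤ CH st (Nat.card (Ty A Bool q 0)) N ∧
        ∀ (V' : Type) (E' : V' → A → V' → Prop) (u' v' : V'), T.Sat E' u' v' →
          ∃ w ∈ M.accepts, Path (fun x l y => ∃ T ∈ K l, T.Sat E' x y) u' w v'

/-- Small expansions of binary queries. -/
def T_SHR : Prop :=
  ∀ {A : Type} [Finite A] (q : ℕ) (ω : RQ A) (V : Type) (E : V → A → V → Prop) (u v : V),
    ω.Sat E u v →
    ∃ T0 T : Term A, T0.Sat E u v ∧ tt q T = tt q T0 ∧
      sz T ≤ SZ (Nat.card (Ty A Bool q 0)) ω ∧ Snd T ω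

/-- Small expansions of queries of arity `r`. -/
def T_SHC : Prop :=
  ∀ {A : Type} [Finite A] (q : ℕ) {r : ℕ} (t : CRQ A r) (V : Type) (E : V → A → V → Prop)
    (z : Fin r → V), t.Sat E z →
    ∃ ch0 ch : Fin t.b.m → Term A,
      (∃ μ : Fin t.b.n → V, (∀ i, (ch0 i).Sat E (μ (t.b.src i)) (μ (t.b.tgt i))) ∧
        ∀ j, μ (t.out j) = z j) ∧
      (∀ i, tt q (ch i) = tt q (ch0 i)) ∧
      t.b.n + ∑ i, sz (ch i) ≤ SZC (Nat.card (Ty A Bool q 0)) t ∧
      ∀ (V' : Type) (E' : V' → A → V' → Prop) (μ' : Fin t.b.n → V'),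
        (∀ i, (ch i).Sat E' (μ' (t.b.src i)) (μ' (t.b.tgt i))) →
        t.Sat E' (fun j => μ' (t.out j))

/-- Bounds for the sizes of small expansions. -/
def T_SZB : Prop :=
  ∀ {A : Type} (ν : ℕ),
    (∀ ω : RQ A, SZ ν ω ≤ (10 * (ν + 1)) ^ ω.size) ∧
    ∀ (r : ℕ) (t : CRQ A r), SZC ν t ≤ (10 * (ν + 1)) ^ t.size

/-- The canonical database of a term has at most `sz T` nodes. -/
def T_CRD : Prop :=
  ∀ {A : Type} (T : Term A), Finite (Cv T.stp) ∧ Nat.card (Cv T.stp) ≤ sz T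

/-- Small model property for containment of Regular Queries. -/
def T_SMA : Prop :=
  ∀ {A : Type} [Finite A] {r : ℕ} (Γ Δ : Query A r),
    (∀ (V : Type) [Finite V], Nat.card V ≤ SMB (Nat.card A) Γ.size Δ.size →
      ∀ (E : V → A → V → Prop) (z : Fin r → V), Γ.Sat E z → Δ.Sat E z) →
    Γ.Le Δ

end Pool.Agent.H68.GCL
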